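import Pool.Agent.E8helper90.AF.Final

/-!
MP_6f117a_ag, Q1: varieties without curves of genus at most one, and maps from curves whose
coordinates are polynomials in points of elliptic curves and units, with moving coefficients.

`k` is any algebraically closed field of characteristic zero. `IsFF k K` says that `K` is the
function field of a smooth projective curve `C` over `k`; the places `P : Place k K` are the points of
`C`, `P.ord` is the order of vanishing at `P`, `canDeg k K` is `2 g - 2`, `hgt k a` is the degree
(the number of the poles) of the function `a`, and `pht k f` is the degree of the morphism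
`f : C → P^N` with the homogeneous coordinates `f 0, …, f N`, that is of the pullback of `O(1)`.

`F` and `J` are families of polynomials in the homogeneous coordinates and in parameters
`t = (t 0, …, t (r - 1))`, and `X_t`, `Z_t` are the closed subsets of `P^N` with the equations
`F (·, t) = 0` and `J (·, t) = 0`. (A single variety is the case `r = 0`, and `Z_t` is empty if `J`
is the constant `1`.) `LowGenusIn F J` says: for all `t` in `k^r`, each nonconstant morphism from a
smooth projective curve of genus at most one to `X_t` has its image in `Z_t`. If `Z_t` is empty this
holds if `X_t` is groupless.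

The proof: in an ultraproduct of counterexamples the functions of small degree form a subfield `S`
which is stable under the ultraproduct `D` of derivations with few poles, and the differential field
has many derivations `E` that kill `S` and move the points `(x, y)` and the units `u` with constant
speeds, `E x = w y`, `E u = w u`. For a direction with minimal support all these functions are
algebraic over the constants of `E` and one of them. The Taylor series along `E` at a `k`-point of a
finitely generated ring give a function field with a vector field which is regular everywhere, so
that its genus is at most one, with a nonconstant point of some `X_t` outside `Z_t`.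
-/

set_option autoImplicit false

namespace Pool.Agent.Results.MP_6f117a_ag.MovingCoordinatesH90

open FF MvPolynomial Pool.Agent.W603.LV Pool.Agent.W603.PV
open Pool.Agent.E8helper90.AF (LowGenusIn)

/-- Let `k` be an algebraically closed field of characteristic zero, and let `X_t ⊇ Z_t`, `t ∈ k^r`,
be an algebraic family of closed subsets of `P^N` such that, for all `t`, every nonconstant morphism
from a curve of genus at most one to `X_t` has its image in `Z_t`. For all `n`, `m` and `D` there is a
number `A` with the following property. Let `C` be any smooth projective curve over `k` of genus `g`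
with function field `K`, let `S` be a finite set of points of `C`, and let `d` be a natural number. Let
`f : C → X_t`, `f(C) ⊄ Z_t`, be a morphism to a member of the family with a parameter `t` in `K^r` whose
coordinates are functions of degree at most `d`, and suppose that the homogeneous coordinates of `f`
are the values of polynomials of degree at most `D`, whose coefficients are arbitrary functions in `K`
of degree at most `d`, at the coordinates `(x j, y j)` of morphisms from `C` to any elliptic curves
`y^2 = x^3 + a x + b` over `k` (`j < n`), and at functions `u j` without zeros and poles outside `S`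
(`j < m`). Then `deg f ≤ A (max (2 g - 2) 0 + |S| + d)`. -/
theorem result {k : Type} [Field k] [IsAlgClosed k] [CharZero k] {N r : ℕ} {ι κ : Type} [Finite κ]
    (F : ι → MvPolynomial (Fin (N + 1) ⊕ Fin r) k) (J : κ → MvPolynomial (Fin (N + 1) ⊕ Fin r) k)
    (hFJ : LowGenusIn F J) (n m D : ℕ) :
    ∃ A : ℕ, ∀ (K : Type) [Field K] [Algebra k K] [IsFF k K] (S : Finset (Place k K)) (d : ℕ)
      (x y : Fin n → K) (a b : Fin n → k) (u : Fin m → K)
      (P : Fin (N + 1) → MvPolynomial (Fin n ⊕ Fin n ⊕ Fin m) K) (t : Fin r → K)
      (f : Fin (N + 1) → K),
      (∀ j, 4 * a j ^ 3 + 27 * b j ^ 2 ≠ 0) →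
      (∀ j, y j ^ 2 = x j ^ 3 + algebraMap k K (a j) * x j + algebraMap k K (b j)) →
      (∀ j, u j ≠ 0 ∧ ∀ Q : Place k K, Q ∉ S → Q.ord (u j) = 0) →
      (∀ i, (P i).totalDegree ≤ D ∧ ∀ α, hgt k ((P i).coeff α) ≤ d) →
      (∀ l, hgt k (t l) ≤ d) →
      (∀ i, f i = eval (Sum.elim x (Sum.elim y u)) (P i)) → (∃ i, f i ≠ 0) →
      (∀ i, aeval (Sum.elim f t) (F i) = 0) → (∃ i, aeval (Sum.elim f t) (J i) ≠ 0) →
      pht k f ≤ A * (max (canDeg k K) 0 + S.card + d) := by
  by_contra hcon
  push Not at hcon
  choose L h1 h2 h3 S d x y a b u P t f q1 q2 q3 q4 q5 q6 q7 q8 q9 q10 using hcon
  exact Pool.Agent.E8helper90.AF.ult hFJ S d x y a b u P q1 q2 (fun i j => (q3 i j).1)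
    (fun i j => (q3 i j).2) (fun i j => (q4 i j).1) (fun i j => (q4 i j).2) t q5 f q6 q8 q9 q7 q10

end Pool.Agent.Results.MP_6f117a_ag.MovingCoordinatesH90
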