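import Pool.Agent.E8helper90.RC.Thm

/-!
MP_6f117a_ag, Q1, (4) implies (1): projective varieties whose subvarieties are of general type and
which have a quasi-finite map to a product of a variety `B` and elliptic curves.

`IsFF ℂ K` says that `K` is the function field of a smooth projective curve `C` over `ℂ`, `canDeg ℂ K`
is `2 g - 2`, `hgt ℂ a` is the degree (the number of the poles) of the function `a`, and `pht ℂ f` is
the degree of the morphism `f : C → P^N` with the homogeneous coordinates `f 0, …, f N`, that is of
the pullback of `O(1)`.

`F` and `J` are forms in the coordinates of `P^N` whose coefficients are polynomials in parameters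
`t = (t 0, …, t (r - 1))`, and `X_t`, `Z_t` are the closed subsets of `P^N` with the equations
`F (·, t) = 0` and `J (·, t) = 0`. (A single variety is the case `r = 0`, and `Z_t` is empty if `J`
is the constant `1`.) `SubGT F J` says: for all `t` in `ℂ^r`, all subvarieties of positive dimension
of `X_t` which are not contained in `Z_t` are of general type. If `Z_t` is empty this is property (4)
for `X_t`.

The polynomials `H`, `P c`, `Q c`, `R c` depend on the coordinates of `P^N`, on `t` and on `M` further
parameters `β`, which are functions of small degree. `QFin F J H P R` says that for the points `ξ` of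
`X_t` outside `Z_t`, with coordinates in any field, and all `β` with `H (ξ, t, β) = 0`, the coordinates
of `ξ` are algebraic over `β` and the values `P c / R c` at `(ξ, t, β)`. For example, `β` may be the
image of `ξ` in an affine chart of a variety `B`, `H (ξ, β) = 0` may be the equations of the graph of
a map `X → B`, and `(P c / R c, Q c / R c) : X → E_c` may be charts of morphisms to elliptic curves,
such that the map from `X` to the product of `B` and the curves `E_c` is finite.

The proof: in an ultraproduct of counterexamples the functions of degree `o(deg f)` form a field `S`,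
which is stable under the ultraproduct `D` of vector fields with few poles and no zeros, and all
functions are algebraic over `S` and finitely many algebraically independent points of elliptic
curves. In the rings generated by these points and `S` there are no prime ideals of height one which
are stable under `D`; the points of the curves which lie in a closed subset of codimension two are
therefore few (by an interpolation argument). A limit argument gives enough valuations of the field
of these functions at which the flows of constant speed are regular, and shows that the values of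
pluricanonical forms on these flows lie in `S`.
-/

set_option autoImplicit false

namespace Pool.Agent.Results.MP_6f117a_ag.OverEllipticProductsH90

open FF MvPolynomial Pool.Agent.W603.LV Pool.Agent.W603.PV
open Pool.Agent.E8helper90.RC (FormIn SubGT QFin at2 at3)

/-- Let `X_t ⊇ Z_t`, `t ∈ ℂ^r`, be an algebraic family of closed subsets of `P^N` such that, for all
`t`, the subvarieties of positive dimension of `X_t` which are not contained in `Z_t` are of general
type, and let `H` be forms in the coordinates of `P^N` and `(P c, R c)` pairs of forms of the same
degree (`c < n`), all with coefficients which are polynomials in `t` and `β`, such that the map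
`(ξ, β) ↦ (β, (P c / R c)(ξ, t, β))` is quasi-finite on the set of all `(ξ, β)` with `ξ ∈ X_t ∖ Z_t`
and `H (ξ, t, β) = 0`, for all `t`. There is a number `A` with the following property. Let `C` be any
smooth projective curve over `ℂ` of genus `g` with function field `K`, let `t ∈ ℂ^r`, let
`f : C → X_t`, `f(C) ⊄ Z_t`, be a morphism, let `β` be functions of degree at most `d` on `C` with
`H (f, t, β) = 0`, and let `y^2 = x^3 + a_c x + b_c` be any elliptic curves over `ℂ` which contain the
points `(P c / R c, Q c / R c)(f, t, β)` for all `c` with `R c (f, t, β) ≠ 0`. Then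
`deg f ≤ A (max (2 g - 2) 0 + d)`. -/
theorem result {N r M n : ℕ} {ι κ η : Type} [Finite ι] [Finite κ] [Finite η]
    (F : ι → MvPolynomial (Fin (N + 1) ⊕ Fin r) ℂ) (J : κ → MvPolynomial (Fin (N + 1) ⊕ Fin r) ℂ)
    (H : η → MvPolynomial (Fin (N + 1) ⊕ Fin r ⊕ Fin M) ℂ)
    (P Q R : Fin n → MvPolynomial (Fin (N + 1) ⊕ Fin r ⊕ Fin M) ℂ)
    (hF : ∀ e, ∃ m, FormIn m (F e)) (hJ : ∀ e, ∃ m, FormIn m (J e))
    (hH : ∀ e, ∃ m, FormIn m (H e)) (hPR : ∀ c, ∃ m, FormIn m (P c) ∧ FormIn m (R c))
    (hGT : SubGT F J) (hqf : QFin F J H P R) :
    ∃ A : ℕ, ∀ (K : Type) [Field K] [Algebra ℂ K] [IsFF ℂ K] (d : ℕ) (t : Fin r → ℂ)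
      (f : Fin (N + 1) → K) (β : Fin M → K) (a b : Fin n → ℂ),
      (∃ l, f l ≠ 0) → (∀ e, at2 f t (F e) = 0) → (∃ e, at2 f t (J e) ≠ 0) →
      (∀ e, at3 f t β (H e) = 0) → (∀ s, hgt ℂ (β s) ≤ d) →
      (∀ c, 4 * a c ^ 3 + 27 * b c ^ 2 ≠ 0) →
      (∀ c, at3 f t β (R c) ≠ 0 → at3 f t β (Q c) ^ 2 * at3 f t β (R c) =
        at3 f t β (P c) ^ 3 + algebraMap ℂ K (a c) * at3 f t β (P c) * at3 f t β (R c) ^ 2 +
          algebraMap ℂ K (b c) * at3 f t β (R c) ^ 3) →
      pht ℂ f ≤ A * (max (canDeg ℂ K) 0 + d) :=
  Pool.Agent.E8helper90.RC.main F J H P Q R hF hJ hH hPR hGT hqf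

end Pool.Agent.Results.MP_6f117a_ag.OverEllipticProductsH90
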