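import Pool.Agent.E8helper35.IN.Pseudo

/-!
# Algebraic hyperbolicity up to inflection points

Let `X` be a closed subset of `ℙ^N` over `ℂ`, defined by forms of degree at most `D`. There is a
constant `A`, which depends only on `N` and `D`, such that:

(1) if `f : C → X` is a morphism from a smooth projective curve `C` of genus `g(C)` such that

  `deg f > A (2 g(C) + i(f))`,

then `f(C)` is contained in the closure of the union of the nonconstant rational curves `ℙ¹ → X` of
degree at most `A`. Here `i(f)` is the number of inflection points of `f`, counted without
multiplicity: the points of `C` at which some hyperplane of the linear span `⟨f(C)⟩` of dimension `n`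
meets `f` with multiplicity at least `n + 1`. (In the theorem: if `Z` is a closed subset of `ℙ^N`
which contains these rational curves, then `deg f ≤ A (2 g(C) + i(f))` for all `f` with `f(C) ⊄ Z`.)
In particular, a groupless `X`, or any `X` without rational curves, is algebraically hyperbolic if
the number of inflection points is added to the genus: `deg f ≤ A (2 g(C) + i(f))` for all `f`.

(2) if `X` is irreducible and not covered by rational curves, for instance if `X` is of general type,
or if only one pluricanonical form on a smooth projective model of `X` is not zero, then there is a
hypersurface `G = 0` not containing `X` such that `deg f ≤ A (2 g(C) + i(f))` for all the curves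
`f : C → X` not contained in `G = 0`: these `X` are *pseudo* algebraically hyperbolic up to
inflection points, with a constant which depends only on `N` and `D`.

A curve is given by its function field `K`, a function field of one variable over `ℂ`, and `f` by
the point `x = (x_0 : … : x_N)` of `ℙ^N(K)`. The places of `K` are the points of `C`, and the degree
of `f` is the height `pht ℂ x = - ∑_P min_j ord_P (x_j)`. The number `canDeg ℂ K` is the degree of
the canonical divisor, `2 g(C) - 2`.

Proof. Suppose that `f_i : C_i → X_i` is a sequence with `deg f_i > i (2 g + i(f_i) + 1)`. A
basis `y` of the space which is spanned by the coordinates of `f_i` satisfies a linear differential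
equation of order `n + 1`, with respect to a derivation `δ` of `K_i` with at most `2 g + 2` zeros and
poles. After the projective normalisation, the substitution `δ ↦ δ + σ` with
`(n + 1) σ = - δ(W)/W`, `W` the Wronskian, the equation depends only on the projective curve, and its
coefficients have poles only at the zeros and poles of `δ` and at the inflection points, of order at
most `n + 1` there (Fuchs). Their heights are thus small, in comparison with the degree. In the
ultraproduct of the fields `K_i`, the classes of sequences of functions of small height form a
differential field `F`, which is algebraically closed in the ultraproduct. Hence the point `x` of the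
ultraproduct `X` of the `X_i` over the ultraproduct of the `K_i` is not algebraic over `F`, but it
satisfies a linear differential equation over `F` up to a twist. The constants are the ultrapower of
`ℂ`, which is isomorphic to `ℂ`. The ratios of the solutions of linear differential equations are in
a Picard-Vessiot extension, and a theorem of the starting library (`Y377.IL`) gives a family of
rational curves in `X` through the generic point of the closure of `x`. Specialised to the
ultraproduct `Ω` of the algebraic closures of the `K_i` it gives a rational curve in `X` over `Ω`
through the point `x` itself, hence rational curves of bounded degree in `X_i`, over the algebraic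
closure of `K_i`, through the point `f_i`, and by specialisation to `ℂ` the point `f_i` is in the
closure of the union of the rational curves of bounded degree. For (2), if the rational curves of
degree at most `A` are not contained in a hypersurface `G = 0` not containing `X`, then an
ultraproduct of rational curves is a rational curve over an ultrapower of `ℂ` through the generic
point of `X`, and `X` is covered by rational curves; a pluricanonical form on `X` is then zero (a
theorem of the starting library, `Y288.IL`).
-/

set_option autoImplicit false

open FF MvPolynomial Pool.Agent.W603.LV Pool.Agent.W603.PV
open Pool.Agent.TH143.GT (Covered FunField Pluricanonical)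

namespace Pool.Agent.Results.MP_6f117a_ag.PseudoHyperbolicH35

variable {N : ℕ}

/-- All the rational curves `(p_0 : … : p_N) : ℙ¹ → ℙ^N` of degree at most `e` which are not constant
and on which the forms in `S` vanish, are contained in the set of zeros of `T`. -/
def RationalIn (e : ℕ) (S T : Set (MvPolynomial (Fin (N + 1)) ℂ)) : Prop :=
  ∀ p : Fin (N + 1) → Polynomial ℂ, (∀ j, (p j).natDegree ≤ e) →
    (∃ (s t : ℂ) (j l : Fin (N + 1)), (p j).eval s * (p l).eval t ≠ (p l).eval s * (p j).eval t) →
    (∀ F ∈ S, aeval p F = 0) → ∀ G ∈ T, aeval p G = 0

/-- `P` is an inflection point of the curve `x`: a linear form `∑ c_j x_j`, which does not vanish on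
the curve, vanishes at `P` with multiplicity at least `r`, where `r - 1` is the dimension of the
linear span of the curve, so `r` is the dimension of the space of functions spanned by the `x_j`.
(The multiplicity is `P.ord (∑ c_j x_j) - min_j P.ord (x_j)`.) -/
def Inflection {K : Type} [Field K] [Algebra ℂ K] (P : Place ℂ K) (x : Fin (N + 1) → K) : Prop :=
  ∃ c : Fin (N + 1) → ℂ, ∑ j, c j • x j ≠ 0 ∧
    pord P x + Module.finrank ℂ (Submodule.span ℂ (Set.range x)) ≤ P.ord (∑ j, c j • x j)

/-- **Algebraic hyperbolicity up to inflection points.** For all `N` and `D` there is a constant `A`
such that:

(1) Let `X ⊆ ℙ^N` be the set of zeros of a set `S` of forms of degree at most `D`, and `Z ⊆ ℙ^N` the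
set of zeros of a set `T` of forms, of any degrees, and suppose that the nonconstant rational curves
in `X` of degree at most `A` are contained in `Z`. Then every morphism from a smooth projective curve
`C` to `X` with image not contained in `Z` has only finitely many inflection points, and its degree
is at most `A (2 g(C) + number of inflection points)`.

(2) Let `X ⊆ ℙ^N` be the set of zeros of a set `S` of forms of degree at most `D`, irreducible with
the function field `L` and the generic point `y`. Suppose that `X` is not covered by rational curves
or that, for some `n > 0`, there is a nonzero `n`-canonical form on `L` which is regular at all prime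
divisors. Then there is a form `G`, not zero on `X`, such that all morphisms from a smooth projective
curve `C` to `X` with image not contained in `G = 0` have only finitely many inflection points, and
degree at most `A (2 g(C) + number of inflection points)`. -/
theorem result (N D : ℕ) :
    ∃ A : ℕ,
      (∀ S T : Set (MvPolynomial (Fin (N + 1)) ℂ),
        (∀ F ∈ S, ∃ d ≤ D, F.IsHomogeneous d) → (∀ F ∈ T, ∃ d, F.IsHomogeneous d) →
        RationalIn A S T →
        ∀ (K : Type) [Field K] [Algebra ℂ K] [IsFF ℂ K] (x : Fin (N + 1) → K), (∃ j, x j ≠ 0) →
          (∀ F ∈ S, aeval x F = 0) → (∃ G ∈ T, aeval x G ≠ 0) →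
          {P : Place ℂ K | Inflection P x}.Finite ∧
          pht ℂ x ≤ A * (canDeg ℂ K + 2 + {P : Place ℂ K | Inflection P x}.ncard)) ∧
      ∀ S : Set (MvPolynomial (Fin (N + 1)) ℂ), (∀ F ∈ S, ∃ d ≤ D, F.IsHomogeneous d) →
        ∀ (L : Type) [Field L] [Algebra ℂ L] (w : ℕ) (y : Fin (N + 1) → L),
          FunField (Ideal.span S).radical 1 L w y →
          (¬ Covered L ∨ ∃ n : ℕ, 0 < n ∧ ∃ ω : (Fin w → Derivation ℂ L L) → L,
            Pluricanonical w n ω ∧ ω ≠ 0) →
          ∃ G : MvPolynomial (Fin (N + 1)) ℂ, (∃ d, G.IsHomogeneous d) ∧ aeval y G ≠ 0 ∧
            ∀ (K : Type) [Field K] [Algebra ℂ K] [IsFF ℂ K] (x : Fin (N + 1) → K),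
              (∃ j, x j ≠ 0) → (∀ F ∈ S, aeval x F = 0) → aeval x G ≠ 0 →
              {P : Place ℂ K | Inflection P x}.Finite ∧
              pht ℂ x ≤ A * (canDeg ℂ K + 2 + {P : Place ℂ K | Inflection P x}.ncard) :=
  Pool.Agent.E8helper35.IN.pseudo N D

end Pool.Agent.Results.MP_6f117a_ag.PseudoHyperbolicH35
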