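import Pool.Agent.E8helper90.RC.NoR

/-!
MP_6f117a_ag, Q1, (4) implies (1), relative to a base and with an exceptional set: projective
varieties whose subvarieties of dimension at least `w` have generically finite rational maps to a
product of a variety and elliptic curves. Only the generic fibres over the base have to be of general
type.

`IsFF ℂ K` says that `K` is the function field of a smooth projective curve `C` over `ℂ`, `canDeg ℂ K`
is `2 g - 2`, `hgt ℂ a` is the degree (the number of the poles) of the function `a`, and `pht ℂ f` is
the degree of the morphism `f : C → P^N` with the homogeneous coordinates `f 0, …, f N`, that is of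
the pullback of `O(1)`.

`F` and `J` are forms in the coordinates of `P^N`; `X` and `Z₀` are the closed subsets of `P^N` with
the equations `F = 0` and `J = 0`. (`Z₀` is empty if `J` is the constant `1`.) A subvariety `Y` of
dimension `v` of `X` is given by its function field `K` and its generic point `y` (`SubVar F K v y`);
it is not contained in `Z₀` if and only if `J (y) ≠ 0` for one of the forms `J`. `In y f` says that all
forms which vanish on `Y` vanish at `f`, that is, that `f` lies on `Y` (or goes into `Y`, if `f` is a
morphism). `Exc F J w G` and the last clause but one of (2) say that the closed set `{G = 0}` does not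
contain other subvarieties of dimension at least `w` of `X` than the ones which are contained in
`Z₀` (or in one of the exceptional subvarieties).

The base: `B s` and `C s` are forms of the same degree, and `p = (B 0 / C 0, …)` is a rational map from
`X` to the affine space `A^t` (on a subvariety on which `C s` vanishes `B s / C s` is replaced by
`0`). `baseF B C y ⊆ K` is the function field of the image `p (Y)` of the subvariety `Y`, and
`RelGT B C y` says that the generic fibre of `Y → p (Y)`, a variety with the function field `K` over
the field `baseF B C y`, is of general type. (If `t = 0` then `p (Y)` is a point and this says that `Y`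
is of general type. If `Y` is of general type then the generic fibre is of general type, too, but not
conversely; it is of general type, by definition, if it is finite.) `pluriField (baseF B C y) K q` is
the field which is generated over `baseF B C y` by the quotients of the regular pluricanonical forms on
the generic fibre, where `q` is its dimension.

The polynomials `H`, `P c`, `Q c`, `R c` depend on the coordinates of `P^N` and on `M` parameters `β`,
which are functions of small degree. `GenFinR F J w B C H P R` says that for all generic points `ξ` of
subvarieties of dimension at least `w` of `X` which are not contained in `Z₀`, and all `β` (in an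
extension field) with `H (ξ, β) = 0`, the coordinates of `ξ` are algebraic over `β`, `p (ξ)` and the
values `P c / R c` at `(ξ, β)`. For example, `(P c / R c, Q c / R c) : X ⇢ E_c` may be rational maps to
elliptic curves such that `X ⇢ A^t × ∏ E_c` is generically finite on these subvarieties (and `M = 0`).
With `β` one can treat bases with coordinates which are not quotients of forms on `X`.

For `w = 1` the theorem says that the curves on `X` which are not of degree at most
`A (max (2 g - 2) 0 + d)`, where `d` bounds the degree of the curve in the base, are contained in `Z₀`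
or in one of finitely many subvarieties of positive dimension which are not of general type over the
base; if (4) holds for `X`, or if only all the generic fibres are of general type, there are no such
subvarieties. If `X` is irreducible of dimension `w` and of general type over the base, and only `X`
itself has a generically finite map to `A^t × ∏ E_c`, the exceptional set is a proper closed subset of
`X`.
-/

set_option autoImplicit false

namespace Pool.Agent.Results.MP_6f117a_ag.RelativeExceptionalSetH90

open FF MvPolynomial Pool.Agent.W603.LV Pool.Agent.W603.PV Pool.Agent.W602.GT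
open Pool.Agent.E8helper90.RC (FormIn GenFinR Exc Pt In AdmR RelGT baseF pluriField)

/-- Let `X` and `Z₀` be closed subsets of `P^N`, let `w` be a number, let `p : X ⇢ A^t` be given by the
quotients `B s / C s` of forms of the same degree, let `H` be forms in the coordinates of `P^N` and
`(P c, R c)` pairs of forms of the same degree (`c < n`), with coefficients which are polynomials in
`β`, such that `(ξ, β) ↦ (β, p (ξ), (P c / R c)(ξ, β))`, `H (ξ, β) = 0`, is generically finite on all
subvarieties of dimension at least `w` of `X` which are not contained in `Z₀`, and let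
`y^2 = x^3 + a_c x + b_c` be elliptic curves over `ℂ`. Below, a curve is a smooth projective curve `C`
over `ℂ` of genus `g`, a morphism `f : C → X` which does not go into `Z₀`, such that the coordinates of
`p (f)` have degree at most `d`, and functions `β` of degree at most `d` on `C`, such that
`H (f, β) = 0` and `(P c / R c, Q c / R c)(f, β)` lies on the elliptic curve
`y^2 = x^3 + a_c x + b_c` for all `c` with `R c (f, β) ≠ 0`.

(1) Let `V` and `W` be forms of the same degree such that, on each subvariety `Y` of dimension at least
`w` of `X` not contained in `Z₀`, the quotient `V / W` is algebraic over the field generated by the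
quotients of regular pluricanonical forms on the generic fibre of `Y → p (Y)`. Then for all `s` there
are `A` and a closed set `{G = 0}`, which contains no subvarieties of dimension at least `w` of `X`
besides those contained in `Z₀`, such that `s deg (V / W)(f) ≤ deg f + A (max (2 g - 2) 0 + d)` for all
curves which do not go into `{G = 0}`.

(2) There are a number `A`, finitely many subvarieties `Y` of `X` of dimension at least `w`, not
contained in `Z₀`, such that the generic fibre of `Y → p (Y)` is not of general type, and a closed set
`{G = 0}`, which contains no subvarieties of dimension at least `w` of `X` besides those contained in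
`Z₀` or in one of the subvarieties `Y`, such that `deg f ≤ A (max (2 g - 2) 0 + d)` for all curves
which do not go into `{G = 0}` or into one of the subvarieties `Y`. -/
theorem result {N M n t w : ℕ} {ι κ η : Type} [Finite ι] [Finite κ] [Finite η]
    (F : ι → MvPolynomial (Fin (N + 1)) ℂ) (J : κ → MvPolynomial (Fin (N + 1)) ℂ)
    (B C : Fin t → MvPolynomial (Fin (N + 1)) ℂ)
    (H : η → MvPolynomial (Fin (N + 1) ⊕ Fin M) ℂ)
    (P Q R : Fin n → MvPolynomial (Fin (N + 1) ⊕ Fin M) ℂ) (a b : Fin n → ℂ)
    (hF : ∀ e, IsForm (F e)) (hJ : ∀ e, IsForm (J e))
    (hBC : ∀ s, ∃ m, (B s).IsHomogeneous m ∧ (C s).IsHomogeneous m)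
    (hH : ∀ e, ∃ m, FormIn m (H e)) (hPR : ∀ c, ∃ m, FormIn m (P c) ∧ FormIn m (R c))
    (hab : ∀ c, 4 * a c ^ 3 + 27 * b c ^ 2 ≠ 0) (hgf : GenFinR F J w B C H P R) :
    (∀ (V W : MvPolynomial (Fin (N + 1)) ℂ) (m : ℕ), V.IsHomogeneous m → W.IsHomogeneous m →
      (∀ (K : Type) [Field K] [Algebra ℂ K] (v : ℕ) (y : Fin (N + 1) → K), SubVar F K v y →
        w ≤ v → (∃ e, val y (J e) ≠ 0) → ∃ q : ℕ, Algebra.trdeg (baseF B C y) K = q ∧
          IsAlgebraic (pluriField (baseF B C y) K q) (val y V / val y W)) →
      ∀ s : ℕ, ∃ (A : ℕ) (G : Finset (MvPolynomial (Fin (N + 1)) ℂ)), Exc F J w G ∧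
        ∀ (K : Type) [Field K] [Algebra ℂ K] [IsFF ℂ K] (d : ℕ) (f : Fin (N + 1) → K)
          (β : Fin M → K), AdmR F J B C H P Q R a b d f β → (∃ p ∈ G, val f p ≠ 0) →
          s * hgt ℂ (val f V / val f W) ≤ pht ℂ f + A * (max (canDeg ℂ K) 0 + d)) ∧
    ∃ (A : ℕ) (S : Finset (Pt N)) (G : Finset (MvPolynomial (Fin (N + 1)) ℂ)),
      (∀ p ∈ G, IsForm p) ∧
      (∀ Y ∈ S, SubVar F Y.K Y.v Y.y ∧ w ≤ Y.v ∧ (∃ e, val Y.y (J e) ≠ 0) ∧ ¬ RelGT B C Y.y) ∧
      (∀ (K : Type) [Field K] [Algebra ℂ K] (v : ℕ) (y : Fin (N + 1) → K), SubVar F K v y →
        w ≤ v → (∃ e, val y (J e) ≠ 0) → (∀ Y ∈ S, ¬ In Y.y y) → ∃ p ∈ G, val y p ≠ 0) ∧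
      ∀ (K : Type) [Field K] [Algebra ℂ K] [IsFF ℂ K] (d : ℕ) (f : Fin (N + 1) → K)
        (β : Fin M → K), AdmR F J B C H P Q R a b d f β → (∀ Y ∈ S, ¬ In Y.y f) →
        (∃ p ∈ G, val f p ≠ 0) → pht ℂ f ≤ A * (max (canDeg ℂ K) 0 + d) := by
  refine ⟨fun V W m hV hW halg s => ?_, ?_⟩
  · obtain ⟨A, G, hG, h1⟩ := Pool.Agent.E8helper90.RC.main2R F J H P Q R a b hF hJ hH hPR hab hBC
      hgf hV hW halg s
    exact ⟨A, G, hG, fun K _ _ _ d f β hf hp =>
      h1 K d f β hf.ne hf.mem hf.out hf.rel hf.deg hf.bas hf.ell hp⟩
  · exact Pool.Agent.E8helper90.RC.noe_mainR F J H P Q R a b hF hJ hH hPR hab hBC hgf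

end Pool.Agent.Results.MP_6f117a_ag.RelativeExceptionalSetH90
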